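import Pool.Agent.Helper70.GB.Types

/-!
# MP_02f2ca_gt, module A2: from the cut condition to a bijection with finitely many displacements
-/

open Set MeasureTheory Filter Topology

namespace GB

theorem equidecArb_of_bij (A B : Set ℝ) (D : Finset ℝ) (φ : A ≃ B)
    (h : ∀ a : A, (φ a : ℝ) - (a : ℝ) ∈ D) : EquidecArb A B := by
  classical
  let e : Fin D.card ≃ D := D.equivFin.symm
  refine ⟨D.card, fun i => {x | ∃ hx : x ∈ A, (φ ⟨x, hx⟩ : ℝ) - x = (e i : ℝ)},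
    fun i => IsometryEquiv.addRight ((e i : ℝ)), ?_, ?_, ?_, ?_⟩
  · intro i j hij
    rw [Set.disjoint_left]
    rintro x ⟨hx, h1⟩ ⟨hx', h2⟩
    apply hij
    apply e.injective
    apply Subtype.ext
    rw [← h1, ← h2]
  · ext x
    simp only [Set.mem_iUnion, Set.mem_ofPred_eq]
    constructor
    · intro hx
      refine ⟨e.symm ⟨_, h ⟨x, hx⟩⟩, hx, ?_⟩
      simp
    · rintro ⟨i, hx, -⟩
      exact hx
  · intro i j hij
    rw [Set.disjoint_left]
    rintro y ⟨x, ⟨hx, h1⟩, h0⟩ ⟨x', ⟨hx', h2⟩, h3⟩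
    simp only [IsometryEquiv.addRight_apply] at h0 h3
    have h4 : φ ⟨x, hx⟩ = φ ⟨x', hx'⟩ := Subtype.ext (by linarith)
    have h5 := φ.injective h4
    have h6 : x = x' := congrArg Subtype.val h5
    subst h6
    exact hij (e.injective (Subtype.ext (by linarith)))
  · ext y
    simp only [Set.mem_iUnion, Set.mem_image, Set.mem_ofPred_eq]
    constructor
    · intro hy
      have hz := h (φ.symm ⟨y, hy⟩)
      refine ⟨e.symm ⟨_, hz⟩, (φ.symm ⟨y, hy⟩ : A), ⟨(φ.symm ⟨y, hy⟩).2, ?_⟩, ?_⟩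
      · simp
      · simp
    · rintro ⟨i, x, ⟨hx, h1⟩, h2⟩
      simp only [IsometryEquiv.addRight_apply] at h2
      have : (φ ⟨x, hx⟩ : ℝ) = y := by linarith
      rw [← this]
      exact (φ ⟨x, hx⟩).2

/-! ### Neighbourhoods in a group with a marked `ℤ²`-action -/

/-- The box of radius `r` in `ℤ²` as a finite set. -/
noncomputable def boxF (r : ℕ) : Finset (ℤ × ℤ) := Finset.Icc (-(r : ℤ)) r ×ˢ Finset.Icc (-(r : ℤ)) r

theorem mem_boxF {r : ℕ} {u : ℤ × ℤ} : u ∈ boxF r ↔ InSq r u := by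
  simp [boxF, InSq, abs_le]

open Classical in
/-- The box neighbourhood of radius `r` of a finite set. -/
noncomputable def nbh {G : Type*} [AddCommGroup G] (ι : ℤ × ℤ →+ G) (r : ℕ) (F : Finset G) :
    Finset G :=
  (F ×ˢ boxF r).image (fun p => p.1 + ι p.2)

theorem mem_nbh {G : Type*} [AddCommGroup G] (ι : ℤ × ℤ →+ G) (r : ℕ) (F : Finset G) (y : G) :
    y ∈ nbh ι r F ↔ ∃ x ∈ F, ∃ u, InSq r u ∧ x + ι u = y := by
  classical
  unfold nbh
  rw [Finset.mem_image]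
  constructor
  · rintro ⟨⟨x, u⟩, h, rfl⟩
    rw [Finset.mem_product] at h
    exact ⟨x, h.1, u, mem_boxF.1 h.2, rfl⟩
  · rintro ⟨x, hx, u, hu, rfl⟩
    exact ⟨(x, u), Finset.mem_product.2 ⟨hx, mem_boxF.2 hu⟩, rfl⟩

theorem nbh_zero {G : Type*} [AddCommGroup G] (ι : ℤ × ℤ →+ G) (F : Finset G) :
    nbh ι 0 F = F := by
  ext y
  rw [mem_nbh]
  constructor
  · rintro ⟨x, hx, u, hu, rfl⟩
    have hu0 : u = 0 := by
      obtain ⟨h1, h2⟩ := hu
      rw [Nat.cast_zero, abs_nonpos_iff] at h1 h2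
      exact Prod.ext h1 h2
    rw [hu0, map_zero, add_zero]
    exact hx
  · intro hy
    exact ⟨y, hy, 0, ⟨by simp, by simp⟩, by simp⟩

theorem inSq_dirs {e : ℤ × ℤ} (he : e ∈ dirs) : |e.1| ≤ 1 ∧ |e.2| ≤ 1 := by
  simp only [dirs, Finset.mem_insert, Finset.mem_singleton] at he
  rcases he with rfl | rfl | rfl | rfl <;> simp

theorem nbh_step {G : Type*} [AddCommGroup G] (ι : ℤ × ℤ →+ G) (r : ℕ) (F : Finset G) {y : G}
    (hy : y ∈ nbh ι r F) {e : ℤ × ℤ} (he : e ∈ dirs) : y + ι e ∈ nbh ι (r + 1) F := by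
  rw [mem_nbh] at hy ⊢
  obtain ⟨x, hx, u, hu, rfl⟩ := hy
  obtain ⟨h1, h2⟩ := inSq_dirs he
  refine ⟨x, hx, u + e, ⟨?_, ?_⟩, ?_⟩
  · have := abs_add_le u.1 e.1
    have := hu.1
    push_cast
    simp only [Prod.fst_add]
    linarith
  · have := abs_add_le u.2 e.2
    have := hu.2
    push_cast
    simp only [Prod.snd_add]
    linarith
  · rw [map_add, add_assoc]

theorem nbh_mono {G : Type*} [AddCommGroup G] (ι : ℤ × ℤ →+ G) {r s : ℕ} (hrs : r ≤ s)
    (F : Finset G) : nbh ι r F ⊆ nbh ι s F := by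
  intro y hy
  rw [mem_nbh] at hy ⊢
  obtain ⟨x, hx, u, hu, h⟩ := hy
  have : (r : ℤ) ≤ s := by exact_mod_cast hrs
  exact ⟨x, hx, u, ⟨hu.1.trans this, hu.2.trans this⟩, h⟩

theorem bdry_nbh {G : Type*} [AddCommGroup G] (ι : ℤ × ℤ →+ G) (r : ℕ) (F : Finset G) :
    (bdry ι (nbh ι r F) : ℤ) ≤ 4 * (((nbh ι (r + 1) F).card : ℤ) - (nbh ι r F).card) := by
  classical
  have hsub : nbh ι r F ⊆ nbh ι (r + 1) F := nbh_mono ι (Nat.le_succ r) F
  have h1 : bdry ι (nbh ι r F) ≤ ∑ _e ∈ dirs, (nbh ι (r + 1) F \ nbh ι r F).card := by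
    unfold bdry
    refine Finset.sum_le_sum fun e he => ?_
    refine Finset.card_le_card_of_injOn (fun g => g + ι e) ?_ ?_
    · intro g hg
      rw [Finset.mem_coe, Finset.mem_filter] at hg
      rw [Finset.mem_coe, Finset.mem_sdiff]
      exact ⟨nbh_step ι r F hg.1 he, hg.2⟩
    · intro a _ b _ hab
      exact add_right_cancel hab
  have h2 : (nbh ι (r + 1) F \ nbh ι r F).card + (nbh ι r F).card = (nbh ι (r + 1) F).card :=
    Finset.card_sdiff_add_card_eq_card hsub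
  have h3 : dirs.card = 4 := by decide
  rw [Finset.sum_const, h3, smul_eq_mul] at h1
  have h4 : (bdry ι (nbh ι r F) : ℤ) ≤ 4 * ((nbh ι (r + 1) F \ nbh ι r F).card : ℤ) := by
    exact_mod_cast h1
  have h5 : ((nbh ι (r + 1) F \ nbh ι r F).card : ℤ) + (nbh ι r F).card
      = (nbh ι (r + 1) F).card := by exact_mod_cast h2
  linarith

theorem bdry_pos {G : Type*} [AddCommGroup G] (ι : ℤ × ℤ →+ G) (hι : Function.Injective ι)
    (F : Finset G) (hF : F.Nonempty) : 1 ≤ bdry ι F := by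
  classical
  by_contra hcon
  have h0 : bdry ι F = 0 := by omega
  unfold bdry at h0
  rw [Finset.sum_eq_zero_iff] at h0
  have h1 := h0 (1, 0) (by decide)
  rw [Finset.card_eq_zero, Finset.filter_eq_empty_iff] at h1
  obtain ⟨g, hg⟩ := hF
  have h2 : ∀ n : ℕ, g + ι ((n : ℤ), 0) ∈ F := by
    intro n
    induction n with
    | zero =>
      have : (((0 : ℕ) : ℤ), (0 : ℤ)) = 0 := rfl
      rw [this, map_zero, add_zero]
      exact hg
    | succ n ih =>
      have h3 := h1 ih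
      rw [not_not] at h3
      have h4 : (((n + 1 : ℕ) : ℤ), (0 : ℤ)) = ((n : ℤ), 0) + (1, 0) := by
        simp
      rw [h4, map_add, ← add_assoc]
      exact h3
  have hinj : Function.Injective (fun n : ℕ => g + ι ((n : ℤ), 0)) := by
    intro a b hab
    have h5 := hι (add_left_cancel hab)
    have h6 : (a : ℤ) = (b : ℤ) := congrArg Prod.fst h5
    exact_mod_cast h6
  exact (Set.infinite_of_injective_forall_mem (s := (F : Set G)) hinj
    (fun n => by exact_mod_cast h2 n)) F.finite_toSet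

/-- The abstract counting inequality behind Hall's condition. -/
theorem hall_count {G : Type*} [AddCommGroup G] (ι : ℤ × ℤ →+ G) (hι : Function.Injective ι)
    (p q : G → ℤ) (hp : ∀ g, 0 ≤ p g) (hq : ∀ g, 0 ≤ q g)
    (hcut : ∀ F : Finset G, |∑ g ∈ F, (p g - q g)| ≤ 3 * (bdry ι F : ℤ))
    (F : Finset G) (hF : F.Nonempty) :
    (F.card : ℤ) + ∑ g ∈ F, p g ≤ (nbh ι 24 F).card - 1 + ∑ g ∈ nbh ι 24 F, q g := by
  have hsum : ∑ r ∈ Finset.range 24,
      (((nbh ι (r + 1) F).card : ℤ) - (nbh ι r F).card) = (nbh ι 24 F).card - F.card := by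
    have h := Finset.sum_range_sub (fun r => ((nbh ι r F).card : ℤ)) 24
    rw [h, nbh_zero]
  have hne : ∀ r, (nbh ι r F).Nonempty := fun r =>
    hF.mono (by
      have := nbh_mono ι (Nat.zero_le r) F
      rwa [nbh_zero] at this)
  have hD : (6 : ℤ) ≤ (nbh ι 24 F).card - F.card := by
    have h1 : ∑ r ∈ Finset.range 24, (1 : ℤ) ≤ ∑ r ∈ Finset.range 24,
        4 * (((nbh ι (r + 1) F).card : ℤ) - (nbh ι r F).card) := by
      refine Finset.sum_le_sum fun r _ => ?_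
      have h2 := bdry_nbh ι r F
      have h3 : (1 : ℤ) ≤ bdry ι (nbh ι r F) := by exact_mod_cast bdry_pos ι hι _ (hne r)
      linarith
    rw [← Finset.mul_sum, hsum] at h1
    simp at h1
    linarith
  obtain ⟨r, hr, hr6⟩ : ∃ r ∈ Finset.range 24,
      6 * (bdry ι (nbh ι r F) : ℤ) ≤ (nbh ι 24 F).card - F.card := by
    by_contra hcon
    push Not at hcon
    have h1 : ∑ r ∈ Finset.range 24, (((nbh ι 24 F).card : ℤ) - F.card) <
        ∑ r ∈ Finset.range 24, 6 * (bdry ι (nbh ι r F) : ℤ) :=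
      Finset.sum_lt_sum_of_nonempty ⟨0, by simp⟩ hcon
    have h2 : ∑ r ∈ Finset.range 24, 6 * (bdry ι (nbh ι r F) : ℤ) ≤ ∑ r ∈ Finset.range 24,
        24 * (((nbh ι (r + 1) F).card : ℤ) - (nbh ι r F).card) := by
      refine Finset.sum_le_sum fun r _ => ?_
      have h2 := bdry_nbh ι r F
      linarith
    have h3 : ∑ r ∈ Finset.range 24,
        24 * (((nbh ι (r + 1) F).card : ℤ) - (nbh ι r F).card)
        = 24 * (((nbh ι 24 F).card : ℤ) - F.card) := by
      rw [← Finset.mul_sum, hsum]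
    rw [h3] at h2
    rw [Finset.sum_const, Finset.card_range, nsmul_eq_mul] at h1
    push_cast at h1
    linarith
  have hr' : r ≤ 24 := (Finset.mem_range.1 hr).le
  have e1 : ∑ g ∈ F, p g ≤ ∑ g ∈ nbh ι r F, p g := by
    refine Finset.sum_le_sum_of_subset_of_nonneg ?_ fun g _ _ => hp g
    have := nbh_mono ι (Nat.zero_le r) F
    rwa [nbh_zero] at this
  have e2 : ∑ g ∈ nbh ι r F, q g ≤ ∑ g ∈ nbh ι 24 F, q g :=
    Finset.sum_le_sum_of_subset_of_nonneg (nbh_mono ι hr' F) fun g _ _ => hq g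
  have e3 := (abs_le.1 (hcut (nbh ι r F))).2
  rw [Finset.sum_sub_distrib] at e3
  linarith

/-! ### Fibres -/

/-- Representative in `[0,1)`. -/
noncomputable def repr1 (g : AddCircle (1 : ℝ)) : ℝ := (AddCircle.equivIco 1 0 g : ℝ)

theorem coe_repr1 (g : AddCircle (1 : ℝ)) : ((repr1 g : ℝ) : AddCircle (1 : ℝ)) = g :=
  AddCircle.coe_equivIco

theorem repr1_mem (g : AddCircle (1 : ℝ)) : repr1 g ∈ Ico (0 : ℝ) 1 := by
  have h := (AddCircle.equivIco (1 : ℝ) 0 g).2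
  exact ⟨h.1, by simpa [repr1] using h.2⟩

theorem repr1_coe {x : ℝ} (hx : x ∈ Ico (0 : ℝ) 1) : repr1 (x : AddCircle (1 : ℝ)) = x :=
  AddCircle.equivIco_coe_of_mem (p := (1 : ℝ)) (a := 0) (by rwa [zero_add])

theorem repr1_injective : Function.Injective repr1 := fun a b hab => by
  rw [← coe_repr1 a, ← coe_repr1 b, hab]

theorem coe_add_two (x : ℝ) : ((x + 2 : ℝ) : AddCircle (1 : ℝ)) = x := by
  have h : ((2 : ℝ) : AddCircle (1 : ℝ)) = 0 := by
    rw [AddCircle.coe_eq_zero_iff]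
    exact ⟨2, by norm_num⟩
  rw [AddCircle.coe_add, h, add_zero]

open Classical in
/-- The points of the body over a finite set of positions. -/
noncomputable def fib (P : Set ℝ) (N : Finset (AddCircle (1 : ℝ))) : Finset ℝ :=
  ((N.image repr1).erase 0) ∪ ((N.image repr1).filter (· ∈ P)).image (· + 2)

theorem mem_fib (P : Set ℝ) (hP : P ⊆ Ioo 0 1) (N : Finset (AddCircle (1 : ℝ))) (b : ℝ) :
    b ∈ fib P N ↔ b ∈ Ioo (0 : ℝ) 1 ∪ (fun x => x + 2) '' P ∧ (b : AddCircle (1 : ℝ)) ∈ N := by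
  classical
  unfold fib
  rw [Finset.mem_union, Finset.mem_erase, Finset.mem_image, Finset.mem_image]
  constructor
  · rintro (⟨h0, g, hg, rfl⟩ | ⟨x, hx, rfl⟩)
    · refine ⟨Or.inl ⟨lt_of_le_of_ne (repr1_mem g).1 (Ne.symm h0), (repr1_mem g).2⟩, ?_⟩
      rw [coe_repr1]
      exact hg
    · rw [Finset.mem_filter, Finset.mem_image] at hx
      obtain ⟨⟨g, hg, rfl⟩, hx⟩ := hx
      refine ⟨Or.inr ⟨repr1 g, hx, rfl⟩, ?_⟩
      rw [coe_add_two, coe_repr1]
      exact hg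
  · rintro ⟨hb | ⟨x, hx, rfl⟩, hN⟩
    · left
      exact ⟨hb.1.ne', _, hN, repr1_coe ⟨hb.1.le, hb.2⟩⟩
    · right
      simp only at hN
      rw [coe_add_two] at hN
      refine ⟨x, ?_, rfl⟩
      rw [Finset.mem_filter, Finset.mem_image]
      exact ⟨⟨_, hN, repr1_coe ⟨(hP hx).1.le, (hP hx).2⟩⟩, hx⟩

theorem card_fib (P : Set ℝ) (hP : P ⊆ Ioo 0 1) (N : Finset (AddCircle (1 : ℝ))) :
    (N.card : ℤ) - 1 + ∑ g ∈ N, (((↑) : ℝ → AddCircle (1 : ℝ)) '' P).indicator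
      (fun _ => (1 : ℤ)) g ≤ (fib P N).card ∧
    ((fib P N).card : ℤ) ≤ N.card + ∑ g ∈ N, (((↑) : ℝ → AddCircle (1 : ℝ)) '' P).indicator
      (fun _ => (1 : ℤ)) g := by
  classical
  have hdis : Disjoint ((N.image repr1).erase 0)
      (((N.image repr1).filter (· ∈ P)).image (· + 2)) := by
    rw [Finset.disjoint_left]
    intro x hx hx'
    rw [Finset.mem_erase, Finset.mem_image] at hx
    rw [Finset.mem_image] at hx'
    obtain ⟨y, hy, rfl⟩ := hx'
    rw [Finset.mem_filter] at hy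
    obtain ⟨-, g, -, hg⟩ := hx
    have h1 := (repr1_mem g).2
    have h2 := (hP hy.2).1
    linarith
  have hcard : (fib P N).card = ((N.image repr1).erase 0).card
      + ((N.image repr1).filter (· ∈ P)).card := by
    unfold fib
    rw [Finset.card_union_of_disjoint hdis,
      Finset.card_image_of_injective _ (add_left_injective (2 : ℝ))]
  have hN : (N.image repr1).card = N.card := Finset.card_image_of_injective _ repr1_injective
  have h1 : ((N.image repr1).erase 0).card ≤ N.card := hN ▸ Finset.card_erase_le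
  have h2 : N.card - 1 ≤ ((N.image repr1).erase 0).card := hN ▸ Finset.pred_card_le_card_erase
  have h3 : ∑ g ∈ N, (((↑) : ℝ → AddCircle (1 : ℝ)) '' P).indicator (fun _ => (1 : ℤ)) g
      = ((N.image repr1).filter (· ∈ P)).card := by
    rw [Finset.filter_image, Finset.card_image_of_injective _ repr1_injective,
      Finset.card_filter]
    push_cast
    refine Finset.sum_congr rfl fun g _ => ?_
    rw [Set.indicator_apply]
    refine if_congr ?_ rfl rfl
    constructor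
    · rintro ⟨x, hx, rfl⟩
      rwa [repr1_coe ⟨(hP hx).1.le, (hP hx).2⟩]
    · intro h
      exact ⟨_, h, coe_repr1 g⟩
  rw [h3, hcard]
  constructor
  · have : (N.card : ℤ) - 1 ≤ ((N.image repr1).erase 0).card := by omega
    push_cast
    linarith
  · push_cast
    have : (((N.image repr1).erase 0).card : ℤ) ≤ N.card := by exact_mod_cast h1
    linarith

set_option maxRecDepth 100000 in
/-- Hall's theorem: an injection with bounded displacement. -/
theorem exists_inj (a₁ a₂ : ℝ) (hι : Function.Injective (iota a₁ a₂)) (P Q : Set ℝ)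
    (hP : P ⊆ Ioo 0 1) (hQ : Q ⊆ Ioo 0 1)
    (hcut : ∀ F : Finset (AddCircle (1 : ℝ)),
      |∑ g ∈ F, ((((↑) : ℝ → AddCircle (1 : ℝ)) '' P).indicator (fun _ => (1 : ℤ)) g
        - (((↑) : ℝ → AddCircle (1 : ℝ)) '' Q).indicator (fun _ => (1 : ℤ)) g)|
        ≤ 3 * (bdry (iota a₁ a₂) F : ℤ)) :
    ∃ f : ↥(Ioo (0 : ℝ) 1 ∪ (fun x => x + 2) '' P) → ↥(Ioo (0 : ℝ) 1 ∪ (fun x => x + 2) '' Q),
      Function.Injective f ∧ ∀ a : ↥(Ioo (0 : ℝ) 1 ∪ (fun x => x + 2) '' P), ∃ u, InSq 24 u ∧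
        ((a : ℝ) : AddCircle (1 : ℝ)) + iota a₁ a₂ u = ((f a : ℝ) : AddCircle (1 : ℝ)) := by
  classical
  set X := ↥(Ioo (0 : ℝ) 1 ∪ (fun x => x + 2) '' P)
  let t : X → Finset ℝ := fun a => fib Q (nbh (iota a₁ a₂) 24 {((a : ℝ) : AddCircle (1 : ℝ))})
  have hall : ∀ s : Finset X, s.card ≤ (s.biUnion t).card := by
    intro s
    rcases s.eq_empty_or_nonempty with rfl | hs
    · simp
    set F : Finset (AddCircle (1 : ℝ)) := s.image (fun a : X => ((a : ℝ) : AddCircle (1 : ℝ)))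
      with hFdef
    have hF : F.Nonempty := by
      rw [hFdef]
      exact hs.image _
    have h1 : s.card ≤ (fib P F).card := by
      refine Finset.card_le_card_of_injOn (fun a : X => (a : ℝ)) ?_ ?_
      · intro a ha
        rw [Finset.mem_coe] at ha ⊢
        rw [mem_fib P hP]
        exact ⟨a.2, Finset.mem_image_of_mem _ ha⟩
      · intro a _ b _ hab
        exact Subtype.ext hab
    have h2 : fib Q (nbh (iota a₁ a₂) 24 F) ⊆ s.biUnion t := by
      intro b hb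
      rw [mem_fib Q hQ, mem_nbh] at hb
      obtain ⟨hbQ, x, hx, u, hu, hxu⟩ := hb
      rw [hFdef, Finset.mem_image] at hx
      obtain ⟨a, ha, rfl⟩ := hx
      rw [Finset.mem_biUnion]
      refine ⟨a, ha, ?_⟩
      simp only [t]
      rw [mem_fib Q hQ, mem_nbh]
      exact ⟨hbQ, _, Finset.mem_singleton_self _, u, hu, hxu⟩
    have h3 := Finset.card_le_card h2
    have h4 := (card_fib P hP F).2
    have h5 := (card_fib Q hQ (nbh (iota a₁ a₂) 24 F)).1
    have h6 := hall_count (iota a₁ a₂) hι _ _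
      (fun g => Set.indicator_nonneg (fun _ _ => zero_le_one) g)
      (fun g => Set.indicator_nonneg (fun _ _ => zero_le_one) g) hcut F hF
    have h7 : (s.card : ℤ) ≤ (fib P F).card := by exact_mod_cast h1
    have h8 : ((fib Q (nbh (iota a₁ a₂) 24 F)).card : ℤ) ≤ (s.biUnion t).card := by
      exact_mod_cast h3
    have h9 : (s.card : ℤ) ≤ (s.biUnion t).card := by linarith
    exact_mod_cast h9
  obtain ⟨f, hf, hft⟩ := (Finset.all_card_le_biUnion_card_iff_exists_injective t).1 hall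
  have hmem : ∀ a, f a ∈ Ioo (0 : ℝ) 1 ∪ (fun x => x + 2) '' Q ∧
      ((f a : ℝ) : AddCircle (1 : ℝ)) ∈
        nbh (iota a₁ a₂) 24 {((a : ℝ) : AddCircle (1 : ℝ))} := by
    intro a
    have h1 : f a ∈ fib Q (nbh (iota a₁ a₂) 24 {((a : ℝ) : AddCircle (1 : ℝ))}) := hft a
    rw [mem_fib Q hQ] at h1
    exact h1
  refine ⟨fun a => ⟨f a, (hmem a).1⟩, ?_, ?_⟩
  · intro a b hab
    exact hf (congrArg Subtype.val hab)
  · intro a
    obtain ⟨x, hx, u, hu, h⟩ := (mem_nbh _ _ _ _).1 (hmem a).2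
    rw [Finset.mem_singleton] at hx
    subst hx
    exact ⟨u, hu, h⟩

theorem iota_injective (a₁ a₂ : ℝ) (hα : QIndep a₁ a₂) : Function.Injective (iota a₁ a₂) := by
  rw [injective_iff_map_eq_zero]
  intro v hv
  have h1 : ((Lf a₁ a₂ v : ℝ) : AddCircle (1 : ℝ)) = 0 := hv
  rw [AddCircle.coe_eq_zero_iff] at h1
  obtain ⟨n, hn⟩ := h1
  apply hα v n
  rw [← hn]
  simp

theorem mem_body_lt {P : Set ℝ} (hP : P ⊆ Ioo 0 1) {x : ℝ}
    (hx : x ∈ Ioo (0 : ℝ) 1 ∪ (fun x => x + 2) '' P) : 0 < x ∧ x < 3 := by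
  rcases hx with hx | ⟨y, hy, rfl⟩
  · exact ⟨hx.1, hx.2.trans (by norm_num)⟩
  · have h1 := (hP hy).1
    have h2 := (hP hy).2
    simp only
    constructor <;> linarith

set_option maxRecDepth 100000 in
theorem equidec_of_cut (a₁ a₂ : ℝ) (hα : QIndep a₁ a₂) (P Q : Set ℝ)
    (hP : P ⊆ Ioo 0 1) (hQ : Q ⊆ Ioo 0 1)
    (hcut : ∀ F : Finset (AddCircle (1 : ℝ)),
      |∑ g ∈ F, ((((↑) : ℝ → AddCircle (1 : ℝ)) '' P).indicator (fun _ => (1 : ℤ)) g
        - (((↑) : ℝ → AddCircle (1 : ℝ)) '' Q).indicator (fun _ => (1 : ℤ)) g)|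
        ≤ 3 * (bdry (iota a₁ a₂) F : ℤ)) :
    EquidecArb (Ioo (0 : ℝ) 1 ∪ (fun x => x + 2) '' P)
      (Ioo (0 : ℝ) 1 ∪ (fun x => x + 2) '' Q) := by
  classical
  have hι := iota_injective a₁ a₂ hα
  obtain ⟨f, hf, hfR⟩ := exists_inj a₁ a₂ hι P Q hP hQ hcut
  obtain ⟨g, hg, hgR⟩ := exists_inj a₁ a₂ hι Q P hQ hP (by
    intro F
    have h := hcut F
    rw [← abs_neg, ← Finset.sum_neg_distrib] at h
    refine le_of_eq_of_le ?_ h
    congr 1
    refine Finset.sum_congr rfl fun x _ => ?_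
    ring)
  obtain ⟨h, hbij, hR⟩ := Function.Embedding.schroeder_bernstein_of_rel hf hg
    (fun a b => ∃ u, InSq 24 u ∧
      ((a : ℝ) : AddCircle (1 : ℝ)) + iota a₁ a₂ u = ((b : ℝ) : AddCircle (1 : ℝ))) hfR (by
    intro b
    obtain ⟨u, hu, hub⟩ := hgR b
    refine ⟨-u, ⟨?_, ?_⟩, ?_⟩
    · simpa using hu.1
    · simpa using hu.2
    · rw [map_neg, ← hub, add_neg_cancel_right])
  obtain ⟨K, hK⟩ := exists_nat_ge (3 + 24 * |a₁| + 24 * |a₂|)
  obtain ⟨D, hD⟩ : ∃ D : Finset ℝ, D =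
    (boxF 24 ×ˢ Finset.Icc (-(K : ℤ)) K).image (fun p => Lf a₁ a₂ p.1 + p.2) := ⟨_, rfl⟩
  refine equidecArb_of_bij _ _ D (Equiv.ofBijective h hbij) ?_
  intro a
  rw [hD, Equiv.ofBijective_apply]
  obtain ⟨u, hu, hua⟩ := hR a
  have h1 : ((((h a : ℝ) - (a : ℝ) - Lf a₁ a₂ u : ℝ)) : AddCircle (1 : ℝ)) = 0 := by
    rw [AddCircle.coe_sub, AddCircle.coe_sub, ← hua]
    have : iota a₁ a₂ u = ((Lf a₁ a₂ u : ℝ) : AddCircle (1 : ℝ)) := rfl
    rw [this]
    abel
  rw [AddCircle.coe_eq_zero_iff] at h1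
  obtain ⟨n, hn⟩ := h1
  have hn' : (n : ℝ) = (h a : ℝ) - (a : ℝ) - Lf a₁ a₂ u := by
    rw [← hn]
    simp
  rw [Finset.mem_image]
  refine ⟨(u, n), ?_, ?_⟩
  · rw [Finset.mem_product]
    refine ⟨mem_boxF.2 hu, ?_⟩
    rw [Finset.mem_Icc]
    have ha := mem_body_lt hP a.2
    have hb := mem_body_lt hQ (h a).2
    have hL : |Lf a₁ a₂ u| ≤ 24 * |a₁| + 24 * |a₂| := by
      unfold Lf
      refine (abs_add_le _ _).trans ?_
      rw [abs_mul, abs_mul]
      have e1 : |(u.1 : ℝ)| ≤ 24 := by exact_mod_cast hu.1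
      have e2 : |(u.2 : ℝ)| ≤ 24 := by exact_mod_cast hu.2
      have := mul_le_mul_of_nonneg_right e1 (abs_nonneg a₁)
      have := mul_le_mul_of_nonneg_right e2 (abs_nonneg a₂)
      linarith
    rw [abs_le] at hL
    constructor
    · have : (-(K : ℝ)) ≤ n := by
        rw [hn']
        linarith [hL.1, hL.2, ha.1, ha.2, hb.1, hb.2]
      exact_mod_cast this
    · have : (n : ℝ) ≤ K := by
        rw [hn']
        linarith [hL.1, hL.2, ha.1, ha.2, hb.1, hb.2]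
      exact_mod_cast this
  · rw [hn']
    ring

end GB
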